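import Pool.Agent.H43.Fd1

set_option autoImplicit false

namespace Pool.Agent.Results.MP_cbf971_pr.NotMono

open MeasureTheory ProbabilityTheory Set Filter Topology Pool.Agent.H43.Fd
open scoped ENNReal NNReal

/-- jump times: after `n` points the next one comes when the integrated intensity reaches `E n` -/
noncomputable def T (lam : ℝ → ℝ) (γ : ℝ) (E : ℕ → ℝ) : ℕ → ℝ≥0∞
  | 0 => 0
  | n + 1 => ⨅ (t : ℝ≥0) (_ : T lam γ E n ≤ t)
      (_ : E n ≤ ∫ s in (T lam γ E n).toReal..t, lam ((n + γ) / (s + 1))), (t : ℝ≥0∞)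

/-- number of points up to time `t` -/
noncomputable def N (lam : ℝ → ℝ) (γ : ℝ) (E : ℕ → ℝ) (t : ℝ) : ℕ∞ :=
  {n | T lam γ E (n + 1) ≤ ENNReal.ofReal t}.encard

instance : IsProbabilityMeasure (expMeasure 1) := isProbabilityMeasure_expMeasure one_pos

/-- probability of no explosion and convergence of `N t / t` to `x` -/
noncomputable def p (lam : ℝ → ℝ) (x γ : ℝ) : ℝ≥0∞ :=
  (Measure.infinitePi fun _ : ℕ => expMeasure 1)
    {E | (∀ t, N lam γ E t ≠ ⊤) ∧ Tendsto (fun t => ((N lam γ E t).toNat : ℝ) / t) atTop (𝓝 x)}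

/-- stable fixed point -/
def Stable (lam : ℝ → ℝ) (x : ℝ) : Prop :=
  lam x = x ∧ ∃ δ > 0, (∀ y ∈ Ioo (x - δ) x, 0 ≤ y → y < lam y) ∧ ∀ y ∈ Ioo x (x + δ), lam y < y

noncomputable def l (x : ℝ) : ℝ := max 0 (min 2 (max (2 - 20 * x) (40 * x - 36)))

lemma l_cont : Continuous l := by unfold l; fun_prop
lemma l_le (x : ℝ) : l x ≤ 2 := max_le (by norm_num) (min_le_left _ _)
lemma l_a {x : ℝ} (h : 0 ≤ x) (h' : x ≤ 1 / 10) : l x = 2 - 20 * x := by
  rw [l, max_eq_left (by linarith : 40 * x - 36 ≤ 2 - 20 * x), min_eq_right (by linarith),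
    max_eq_right (by linarith)]
lemma l_b {x : ℝ} (h : 1 / 10 ≤ x) (h' : x ≤ 9 / 10) : l x = 0 :=
  max_eq_left ((min_le_right _ _).trans (max_le (by linarith) (by linarith)))
lemma l_c {x : ℝ} (h : 9 / 10 ≤ x) (h' : x ≤ 19 / 20) : l x = 40 * x - 36 := by
  rw [l, max_eq_right (by linarith : 2 - 20 * x ≤ 40 * x - 36), min_eq_right (by linarith),
    max_eq_right (by linarith)]
lemma l_d {x : ℝ} (h : 19 / 20 ≤ x) : l x = 2 := by
  rw [l, min_eq_left ((by linarith : 2 ≤ 40 * x - 36).trans (le_max_right _ _)),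
    max_eq_right (by norm_num)]

lemma fix {x : ℝ} (h : 0 ≤ x) (e : l x = x) : x = 2 / 21 ∨ x = 12 / 13 ∨ x = 2 := by
  rcases le_total x (1 / 10) with a | a
  · rw [l_a h a] at e; left; linarith
  rcases le_total x (9 / 10) with b | b
  · rw [l_b a b] at e; linarith
  rcases le_total x (19 / 20) with c | c
  · rw [l_c b c] at e; right; left; linarith
  · rw [l_d c] at e; right; right; linarith

lemma T_low {E : ℕ → ℝ} (hE : ∀ n, 0 < E n) (n : ℕ) :
    ENNReal.ofReal (10 / 9 * n) ≤ T l (9 / 10) E n := by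
  induction n with
  | zero => simp
  | succ n ih =>
    refine le_iInf fun t => le_iInf fun h1 => le_iInf fun h2 => ?_
    rw [ENNReal.ofReal_le_iff_le_toReal ENNReal.coe_ne_top, ENNReal.coe_toReal]
    by_contra c
    have f := (h1.trans_lt ENNReal.coe_lt_top).ne
    have h3 := (ENNReal.ofReal_le_iff_le_toReal f).1 ih
    have h4 : (T l (9 / 10) E n).toReal ≤ t := ENNReal.toReal_le_coe_of_le_coe h1
    have hn : (0 : ℝ) ≤ n := n.cast_nonneg
    rw [intervalIntegral.integral_congr (g := fun _ => 0) fun s hs => by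
      rw [uIcc_of_le h4] at hs
      have h5 : 0 < s + 1 := by linarith [hs.1]
      push_cast at c
      exact l_b (by rw [le_div_iff₀ h5]; linarith [hs.2]) (by rw [div_le_iff₀ h5]; linarith [hs.1]),
      intervalIntegral.integral_zero] at h2
    exact absurd (hE n) (not_lt.2 h2)

lemma T_eq {E : ℕ → ℝ} {γ : ℝ} (hE : ∀ n, 0 < E n)
    (h : ∀ n : ℕ, ∀ s, 0 ≤ s → s ≤ (∑ i ∈ Finset.range (n + 1), E i) / 2 → l ((n + γ) / (s + 1)) = 2)
    (n : ℕ) : T l γ E n = ENNReal.ofReal ((∑ i ∈ Finset.range n, E i) / 2) := by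
  have S0 : ∀ n, 0 ≤ (∑ i ∈ Finset.range n, E i) / 2 := fun n =>
    div_nonneg (Finset.sum_nonneg fun i _ => (hE i).le) two_pos.le
  induction n with
  | zero => simp [T]
  | succ n ih =>
    have hS : (∑ i ∈ Finset.range (n + 1), E i) / 2 = (∑ i ∈ Finset.range n, E i) / 2 + E n / 2 := by
      rw [Finset.sum_range_succ, add_div]
    have key : ∀ t, (∑ i ∈ Finset.range n, E i) / 2 ≤ t → t ≤ (∑ i ∈ Finset.range (n + 1), E i) / 2 →
        ∫ s in (∑ i ∈ Finset.range n, E i) / 2..t, l ((n + γ) / (s + 1)) =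
          (t - (∑ i ∈ Finset.range n, E i) / 2) * 2 := fun t h1 h2 => by
      rw [intervalIntegral.integral_congr (g := fun _ => 2) fun s hs => by
        rw [uIcc_of_le h1] at hs
        exact h n s ((S0 n).trans hs.1) (hs.2.trans h2), intervalIntegral.integral_const, smul_eq_mul]
    rw [T, ih, ENNReal.toReal_ofReal (S0 n)]
    refine le_antisymm (iInf_le_of_le (Real.toNNReal ((∑ i ∈ Finset.range (n + 1), E i) / 2))
      (iInf_le_of_le ?_ (iInf_le_of_le ?_ le_rfl)))
      (le_iInf fun t => le_iInf fun h1 => le_iInf fun h2 => ?_)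
    · exact ENNReal.ofReal_le_ofReal (by linarith [hE n])
    · rw [Real.coe_toNNReal _ (S0 _), key _ (by linarith [hE n]) le_rfl]
      linarith
    · rw [ENNReal.ofReal_le_iff_le_toReal ENNReal.coe_ne_top, ENNReal.coe_toReal] at h1 ⊢
      by_contra c
      rw [key _ h1 (not_le.1 c).le] at h2
      linarith

lemma count {S : ℕ → ℝ} (hm : Monotone S) (h0 : S 0 = 0)
    (hl : Tendsto (fun n => S n / n) atTop (𝓝 (1 / 2))) :
    (∀ t, {n | ENNReal.ofReal (S (n + 1)) ≤ ENNReal.ofReal t}.encard ≠ ⊤) ∧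
    Tendsto (fun t => (({n | ENNReal.ofReal (S (n + 1)) ≤ ENNReal.ofReal t}.encard).toNat : ℝ) / t)
      atTop (𝓝 2) := by
  have hi : Tendsto S atTop atTop := by
    refine (hl.pos_mul_atTop (by norm_num) tendsto_natCast_atTop_atTop).congr' ?_
    filter_upwards [eventually_gt_atTop 0] with n hn
    field_simp
  have ex : ∀ t, ∃ n, max t 0 < S (n + 1) := fun t =>
    (((tendsto_add_atTop_iff_nat 1).2 hi).eventually (eventually_gt_atTop _)).exists
  classical
  have e : ∀ t, {n | ENNReal.ofReal (S (n + 1)) ≤ ENNReal.ofReal t}.encard = Nat.find (ex t) :=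
    fun t => by
      have : {n | ENNReal.ofReal (S (n + 1)) ≤ ENNReal.ofReal t} = Finset.range (Nat.find (ex t)) := by
        ext n
        rw [mem_ofPred_eq, show ENNReal.ofReal t = ENNReal.ofReal (max t 0) by simp,
          ENNReal.ofReal_le_ofReal_iff (le_max_right _ _),
          Finset.mem_coe, Finset.mem_range, Nat.lt_find_iff]
        exact ⟨fun h m hm' => not_lt.2 ((hm (by omega)).trans h), fun h => not_lt.1 (h n le_rfl)⟩
      rw [this, encard_coe_eq_coe_finsetCard, Finset.card_range]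
  simp only [e, ENat.toNat_natCast]
  refine ⟨fun t => ENat.natCast_ne_top _, ?_⟩
  have hM : Tendsto (fun t => Nat.find (ex t)) atTop atTop := tendsto_atTop.2 fun k => by
    filter_upwards [eventually_ge_atTop (S k)] with t ht
    exact (Nat.le_find_iff _ _).2 fun m hm' => not_lt.2 ((hm hm').trans (ht.trans (le_max_left _ _)))
  have h1 : Tendsto (fun n => S (n + 1) / n) atTop (𝓝 (1 / 2)) := by
    have := (((tendsto_add_atTop_iff_nat 1).2 hl).mul
      ((tendsto_one_div_atTop_nhds_zero_nat (𝕜 := ℝ)).const_add 1))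
    rw [add_zero, mul_one] at this
    refine this.congr' ?_
    filter_upwards [eventually_gt_atTop 0] with n hn
    push_cast
    field_simp
  have h2 : Tendsto (fun t => t / (Nat.find (ex t) : ℝ)) atTop (𝓝 (1 / 2)) := by
    refine tendsto_of_tendsto_of_tendsto_of_le_of_le' (hl.comp hM) (h1.comp hM) ?_ ?_
    · filter_upwards [eventually_ge_atTop 0] with t ht
      refine div_le_div_of_nonneg_right ?_ (Nat.cast_nonneg _)
      show S (Nat.find (ex t)) ≤ t
      rcases h : Nat.find (ex t) with _ | k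
      · rw [h0]; exact ht
      · exact (not_lt.1 (Nat.find_min (ex t) (by omega))).trans (max_eq_left ht).le
    · exact Eventually.of_forall fun t => div_le_div_of_nonneg_right
        ((le_max_left _ _).trans (Nat.find_spec (ex t)).le) (Nat.cast_nonneg _)
  simpa using h2.inv₀ (by norm_num)

lemma mean : Integrable (fun x : ℝ => x) (expMeasure 1) ∧ ∫ x, x ∂expMeasure 1 = 1 := by
  have m : Measurable (gammaPDF 1 1) := (measurable_gammaPDFReal 1 1).ennreal_ofReal
  have f : ∀ᵐ x ∂(volume : Measure ℝ), gammaPDF 1 1 x < ∞ := .of_forall fun _ => ENNReal.ofReal_lt_top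
  have e : (fun x : ℝ => (gammaPDF 1 1 x).toReal • x) =
      (Ioi 0).indicator fun x => Real.exp (-x) * x ^ ((2 : ℝ) - 1) := funext fun x => by
    rcases lt_trichotomy 0 x with h | rfl | h
    · simp [gammaPDF_of_nonneg h.le, h, Real.exp_nonneg, show (2 : ℝ) - 1 = 1 by norm_num]
    · simp
    · simp [gammaPDF_of_neg h, h.le]
  rw [expMeasure, gammaMeasure, integrable_withDensity_iff_integrable_smul' m f,
    integral_withDensity_eq_integral_toReal_smul m f, e, integrable_indicator_iff measurableSet_Ioi,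
    integral_indicator measurableSet_Ioi, ← Real.Gamma_eq_integral two_pos, Real.Gamma_two]
  exact ⟨Real.GammaIntegral_convergent two_pos, rfl⟩

lemma aepos : ∀ᵐ E ∂PP (expMeasure 1) ℕ, ∀ n, 0 < E n := ae_all_iff.2 fun k => by
  refine (measurePreserving_eval_infinitePi (fun _ : ℕ => expMeasure 1) k).quasiMeasurePreserving.ae
    (p := fun t : ℝ => 0 < t) ?_
  rw [ae_iff]
  simp only [not_lt]
  show expMeasure 1 (Iic 0) = 0
  rw [← ofReal_cdf, cdf_expMeasure_eq one_pos]
  simp

lemma slln : ∀ᵐ E ∂PP (expMeasure 1) ℕ,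
    Tendsto (fun n : ℕ => (∑ i ∈ Finset.range n, E i) / (n : ℝ)) atTop (𝓝 1) := by
  have mp := measurePreserving_eval_infinitePi (fun _ : ℕ => expMeasure 1)
  have := strong_law_ae_real (μ := PP (expMeasure 1) ℕ) (fun i E => E i)
    ((mp 0).integrable_comp_of_integrable mean.1)
    (fun i j h => (iIndepFun_infinitePi (X := fun _ x => x) fun _ => measurable_id).indepFun h)
    fun i => ⟨(mp i).measurable.aemeasurable, (mp 0).measurable.aemeasurable,
      (mp i).map_eq.trans (mp 0).map_eq.symm⟩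
  rwa [show ∫ E, E 0 ∂PP (expMeasure 1) ℕ = 1 from (int_mp (mp 0) measurable_id).trans mean.2] at this

lemma posA : 0 < PP (expMeasure 1) ℕ
    {E | ∀ n : ℕ, 1 ≤ n → ∑ i ∈ Finset.range (n + 1), E i ≤ 40 / 19 * n - 2} := by
  classical
  set B : ℕ → Set (ℕ → ℝ) := fun K => {E | ∀ n : ℕ, ∑ i ∈ Finset.range n, E i ≤ K + 2 * n} with hB
  have mB : ∀ K, MeasurableSet (B K) := fun K => measurableSet_setOfPred.2
    (Measurable.forall fun n => Measurable.le' (by fun_prop) measurable_const)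
  obtain ⟨K, hK⟩ : ∃ K, PP (expMeasure 1) ℕ (B K) ≠ 0 := by
    by_contra c
    have : ∀ᵐ E ∂PP (expMeasure 1) ℕ, ∀ K, E ∉ B K :=
      ae_all_iff.2 fun K => measure_eq_zero_iff_ae_notMem.1 (not_not.1 fun h => c ⟨K, h⟩)
    obtain ⟨E, h1, h2⟩ := (this.and slln).exists
    obtain ⟨n, hn⟩ := eventually_atTop.1 (h2.eventually (gt_mem_nhds one_lt_two))
    obtain ⟨C, hC⟩ := ((finite_le_nat n).image fun n => ∑ i ∈ Finset.range n, E i).bddAbove
    refine h1 ⌈C⌉₊ fun k => ?_
    rcases le_or_gt k n with h | h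
    · have := hC ⟨k, h, rfl⟩
      have := Nat.le_ceil C
      have : (0 : ℝ) ≤ k := k.cast_nonneg
      linarith
    · have := (div_lt_iff₀ (by exact_mod_cast (Nat.zero_le n).trans_lt h)).1 (hn k h.le)
      have : (0 : ℝ) ≤ ⌈C⌉₊ := Nat.cast_nonneg _
      linarith
  have sh := inj_mp (expMeasure 1) (add_right_injective (K + 3))
  have h1 : expMeasure 1 (Iic (1 / 20)) ≠ 0 := by
    rw [← ofReal_cdf, cdf_expMeasure_eq one_pos, if_pos (by norm_num)]
    simp
  refine lt_of_lt_of_le ?_ ((glue_mp (expMeasure 1) (Iio (K + 3))).measure_preimage_le _)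
  refine lt_of_lt_of_le ?_ (measure_mono (s := (Set.pi (Finset.range (K + 3)) fun _ => Iic (1 / 20)) ×ˢ
    ((fun (y : ℕ → ℝ) v => y (K + 3 + v)) ⁻¹' B K)) ?_)
  · rw [Measure.prod_prod, sh.measure_preimage (mB K).nullMeasurableSet,
      Measure.infinitePi_pi _ fun _ _ => measurableSet_Iic, Finset.prod_const]
    exact ENNReal.mul_pos (pow_ne_zero _ h1) hK
  · rintro ⟨y, y'⟩ ⟨a, b⟩ n hn
    have s : ∀ k ≤ K + 3, ∑ i ∈ Finset.range k, (Iio (K + 3)).piecewise y y' i ≤ k * (1 / 20) :=
      fun k hk => (Finset.sum_le_card_nsmul _ _ (1 / 20 : ℝ) fun i hi => by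
        have : i < K + 3 := (Finset.mem_range.1 hi).trans_le hk
        rw [piecewise_eq_of_mem _ _ _ (show i ∈ Iio (K + 3) from this)]
        exact a i (by simpa using this)).trans (by simp)
    have hn' : (1 : ℝ) ≤ n := by exact_mod_cast hn
    rcases le_total (n + 1) (K + 3) with h | h
    · have := s _ h
      push_cast at this
      simp only []
      linarith
    · obtain ⟨j, hj⟩ := Nat.exists_eq_add_of_le h
      have h2 := s _ le_rfl
      have h3 : ∑ i ∈ Finset.range j, y' (K + 3 + i) ≤ K + 2 * j := b j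
      have h4 : (n : ℝ) + 1 = K + 3 + j := by exact_mod_cast hj
      have h5 : (0 : ℝ) ≤ K := K.cast_nonneg
      have h6 : (0 : ℝ) ≤ j := j.cast_nonneg
      simp only []
      rw [hj, Finset.sum_range_add, Finset.sum_congr rfl fun i (_ : i ∈ Finset.range j) =>
        piecewise_eq_of_notMem _ y y' (show K + 3 + i ∉ Iio (K + 3) by simp)]
      push_cast at h2
      linarith

lemma pos {γ : ℝ} (h : γ = 0 ∨ γ = 1) : 0 < p l 2 γ := by
  refine posA.trans_le (measure_mono_ae ?_)
  filter_upwards [aepos, slln] with E h1 h2 h3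
  have hm : Monotone fun n => (∑ i ∈ Finset.range n, E i) / 2 := monotone_nat_of_le_succ fun n => by
    rw [Finset.sum_range_succ]; linarith [h1 n]
  have := T_eq (γ := γ) h1 fun n s s0 hs => by
    have h5 : 0 < s + 1 := by linarith
    rcases n with _ | n
    · rcases h with rfl | rfl
      · simpa using l_a le_rfl (by norm_num)
      · have := h3 1 le_rfl
        have := hm (show 0 + 1 ≤ 1 + 1 by omega)
        exact l_d (by rw [le_div_iff₀ h5]; push_cast at *; linarith)
    · have := h3 (n + 1) (by omega)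
      have : 0 ≤ γ := by rcases h with rfl | rfl <;> norm_num
      exact l_d (by rw [le_div_iff₀ h5]; linarith)
  show (∀ t, N l γ E t ≠ ⊤) ∧ _
  simp only [N, this]
  refine count hm (by simp) ((h2.div_const 2).congr fun n => by ring)

lemma zero : p l 2 (9 / 10) = 0 := by
  refine measure_eq_zero_iff_ae_notMem.2 ?_
  filter_upwards [aepos] with E h1 ⟨_, h2⟩
  obtain ⟨t, h3, ht⟩ := ((h2.eventually (lt_mem_nhds (show (3 / 2 : ℝ) < 2 by norm_num))).and
    (eventually_ge_atTop 2)).exists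
  have : N l (9 / 10) E t ≤ ⌈t⌉₊ := by
    refine (encard_le_encard (t := Finset.range ⌈t⌉₊) fun n hn => ?_).trans (by
      rw [encard_coe_eq_coe_finsetCard, Finset.card_range])
    have := (ENNReal.ofReal_le_ofReal_iff (by linarith)).1 ((T_low h1 _).trans hn)
    have hn : (0 : ℝ) ≤ n := n.cast_nonneg
    push_cast at this
    exact Finset.mem_coe.2 (Finset.mem_range.2 (Nat.lt_ceil.2 (by linarith)))
  have h4 : ((N l (9 / 10) E t).toNat : ℝ) ≤ ⌈t⌉₊ := by exact_mod_cast ENat.toNat_le_of_le_natCast this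
  have := Nat.ceil_lt_add_one (show 0 ≤ t by linarith)
  rw [lt_div_iff₀ (by linarith)] at h3
  linarith

theorem result : ∃ lam : ℝ → ℝ, Continuous lam ∧ (∀ x, 0 ≤ lam x) ∧
    {x | 0 ≤ x ∧ lam x = x}.Finite ∧ {x | 0 ≤ x ∧ Stable lam x} = {2 / 21, 2} ∧
    0 < p lam 2 0 ∧ p lam 2 (9 / 10) = 0 ∧ 0 < p lam 2 1 ∧
    ¬MonotoneOn (p lam 2) (Ici 0) ∧ ¬AntitoneOn (p lam 2) (Ici 0) := by
  refine ⟨l, l_cont, fun x => le_max_left _ _, (toFinite {2 / 21, 12 / 13, 2}).subset
    fun x hx => fix hx.1 hx.2, ?_, pos (Or.inl rfl), zero, pos (Or.inr rfl), fun h => ?_, fun h => ?_⟩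
  · ext x
    constructor
    · rintro ⟨h0, h1, δ, hδ, -, h2⟩
      rcases fix h0 h1 with e | rfl | e
      · exact Or.inl e
      · have a := min_le_left δ (1 / 100)
        have b := min_le_right δ (1 / 100)
        have c : 0 < min δ (1 / 100) := lt_min hδ (by norm_num)
        have := h2 (12 / 13 + min δ (1 / 100) / 2) ⟨by linarith, by linarith⟩
        rw [l_c (by linarith) (by linarith)] at this
        linarith
      · exact Or.inr e
    · rintro (rfl | rfl)
      · refine ⟨by norm_num, by rw [l_a] <;> norm_num, 1 / 1000, by norm_num, fun y hy h => ?_,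
          fun y hy => ?_⟩
        · rw [l_a h (by linarith [hy.2])]; linarith [hy.2]
        · rw [l_a (by linarith [hy.1]) (by linarith [hy.2])]; linarith [hy.1]
      · exact ⟨by norm_num, l_d (by norm_num), 1, one_pos,
          fun y hy _ => by rw [l_d (by linarith [hy.1])]; exact hy.2,
          fun y hy => (l_le y).trans_lt hy.1⟩
  · exact absurd (h (mem_Ici.2 le_rfl) (show (9 / 10 : ℝ) ∈ Ici 0 by norm_num) (by norm_num))
      (not_le.2 (zero ▸ pos (Or.inl rfl)))
  · exact absurd (h (show (9 / 10 : ℝ) ∈ Ici 0 by norm_num) (show (1 : ℝ) ∈ Ici 0 by norm_num)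
      (by norm_num)) (not_le.2 (zero ▸ pos (Or.inr rfl)))

end Pool.Agent.Results.MP_cbf971_pr.NotMono
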